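import Pool.Agent.helper90.ZD.SpecB

set_option autoImplicit false

open Complex MeasureTheory
open scoped ComplexOrder

namespace Pool.Agent.ZD

open Pool.Agent.helper84.DM Pool.Agent.helper78.ED Pool.Agent.DH

theorem BHS (h1 : BH1_stmt) (h2 : BH2_stmt) (h3 : BSP_stmt) (h4 : BT1_stmt) (h5 : BT2_stmt)
    (h6 : BT3_stmt) (h7 : BMU_stmt) : BHS_stmt := by
  intro W N L b A V D hN hL hV hD hb hW
  set X : ℝ := (N : ℝ) * L with hX
  have hNr : (1 : ℝ) ≤ N := by exact_mod_cast hN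
  have hLr : (1 : ℝ) ≤ L := by exact_mod_cast hL
  have hX1 : (1 : ℝ) ≤ X := by
    rw [hX]; nlinarith
  obtain ⟨c, hc, hHM⟩ := h1 W N L b V hV hW
  have hB2 := h2 W c N L D hN hL hD
  have hmu := (h7 X hX1).1
  obtain ⟨hBP, hGP, hBd⟩ := h4 W c X L
  obtain ⟨htr, hG0, hG7, hGs⟩ := h5 W c X L hc
  have hB3 := h6 W X
  obtain ⟨hs1, hs2⟩ := h3 W (BMat W X) (GMat W c L) (mu X) hBP hGP hmu hBd
  have hcard : Fintype.card W = W.card := Fintype.card_coe W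
  rw [hcard] at hs1 hs2
  have hre : (BMat W X * BMat W X * BMat W X).trace.re - (W.card : ℝ) * mu X ^ 3
      = 3 * mu X * SD X W + (CS X W).re := by
    rw [hB3, Complex.add_re, Complex.ofReal_re]; ring
  rw [hre] at hs1 hs2
  have hCS : (CS X W).re ≤ ‖CS X W‖ := Complex.re_le_norm _
  have hD0 : 0 ≤ D := by
    have := hD 1 le_rfl (by nlinarith [Nat.mul_le_mul hN hL])
    refine le_trans ?_ this
    simp [d]
  have hS0 : 0 ≤ ∑ n ∈ Finset.Ioc N (4 * N), ∑ x ∈ IL L, ∑ y ∈ IL L, ‖RW W c (n * x) y‖ ^ 2 :=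
    Finset.sum_nonneg fun _ _ => Finset.sum_nonneg fun _ _ => Finset.sum_nonneg fun _ _ => by
      positivity
  have hbs : ∑ n ∈ Finset.Ioc N (4 * N), ‖b n‖ ^ 2 ≤ 3 * N * A ^ 2 := by
    calc ∑ n ∈ Finset.Ioc N (4 * N), ‖b n‖ ^ 2 ≤ ∑ n ∈ Finset.Ioc N (4 * N), A ^ 2 := by
          refine Finset.sum_le_sum fun n hn => ?_
          exact pow_le_pow_left₀ (norm_nonneg _) (hb n hn) 2
      _ = 3 * N * A ^ 2 := by
          rw [Finset.sum_const, Nat.card_Ioc, nsmul_eq_mul]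
          have : ((4 * N - N : ℕ) : ℝ) = 3 * N := by
            have h : 4 * N - N = 3 * N := by omega
            rw [h]; push_cast; ring
          rw [this]
  have hTR : (TRC W c X L).re ≤ 14 * mu X * L * (W.card : ℝ) +
      (4 * (‖CS X W‖ + 3 * mu X * SD X W)) ^ (1 / 3 : ℝ) *
      (7 * L * (W.card : ℝ)) ^ (1 / 3 : ℝ) * (QW W L) ^ (1 / 3 : ℝ) := by
    rw [htr] at hs2
    refine hs2.trans ?_
    have e1 : 2 * mu X * (GMat W c L).trace.re ≤ 14 * mu X * L * (W.card : ℝ) := by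
      have := mul_le_mul_of_nonneg_left hG7 (by positivity : (0 : ℝ) ≤ 2 * mu X)
      linarith
    have e2 : (4 * (3 * mu X * SD X W + (CS X W).re)) ^ (1 / 3 : ℝ)
        ≤ (4 * (‖CS X W‖ + 3 * mu X * SD X W)) ^ (1 / 3 : ℝ) := by
      refine Real.rpow_le_rpow (by linarith) (by linarith) (by norm_num)
    have e3 : ((GMat W c L).trace.re) ^ (1 / 3 : ℝ) ≤ (7 * L * (W.card : ℝ)) ^ (1 / 3 : ℝ) :=
      Real.rpow_le_rpow hG0 hG7 (by norm_num)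
    have hGG : 0 ≤ ∑ t, ∑ t', ‖GMat W c L t t'‖ ^ 2 :=
      Finset.sum_nonneg fun _ _ => Finset.sum_nonneg fun _ _ => by positivity
    have e4 : (∑ t, ∑ t', ‖GMat W c L t t'‖ ^ 2) ^ (1 / 3 : ℝ) ≤ (QW W L) ^ (1 / 3 : ℝ) :=
      Real.rpow_le_rpow hGG hGs (by norm_num)
    have p1 : 0 ≤ (4 * (‖CS X W‖ + 3 * mu X * SD X W)) ^ (1 / 3 : ℝ) :=
      Real.rpow_nonneg (by linarith) _
    have p2 : 0 ≤ ((GMat W c L).trace.re) ^ (1 / 3 : ℝ) := Real.rpow_nonneg hG0 _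
    have p3 : 0 ≤ (∑ t, ∑ t', ‖GMat W c L t t'‖ ^ 2) ^ (1 / 3 : ℝ) := Real.rpow_nonneg hGG _
    have p4 : 0 ≤ (7 * L * (W.card : ℝ)) ^ (1 / 3 : ℝ) := by positivity
    refine add_le_add e1 ?_
    exact mul_le_mul (mul_le_mul e2 e3 p2 p1) e4 p3 (mul_nonneg p1 p4)
  calc V ^ 2 * QW W L ≤ (∑ n ∈ Finset.Ioc N (4 * N), ‖b n‖ ^ 2) *
      ∑ n ∈ Finset.Ioc N (4 * N), ∑ x ∈ IL L, ∑ y ∈ IL L, ‖RW W c (n * x) y‖ ^ 2 := hHM
    _ ≤ (3 * N * A ^ 2) *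
      ∑ n ∈ Finset.Ioc N (4 * N), ∑ x ∈ IL L, ∑ y ∈ IL L, ‖RW W c (n * x) y‖ ^ 2 :=
        mul_le_mul_of_nonneg_right hbs hS0
    _ ≤ (3 * N * A ^ 2) * (D * (TRC W c X L).re) :=
        mul_le_mul_of_nonneg_left hB2 (by positivity)
    _ = 3 * N * A ^ 2 * D * (TRC W c X L).re := by ring
    _ ≤ _ := mul_le_mul_of_nonneg_left hTR (by positivity)

end Pool.Agent.ZD
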